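import Pool.Agent.Lib.MP_06b9d2_tls.HPoly
import Pool.Agent.Lib.MP_06b9d2_tls.Concl
import Pool.Agent.Lib.MP_06b9d2_p2.Cons
import Pool.Agent.Lib.MP_06b9d2_nt.MF.Inst

/-!
MP_06b9d2_nt, large irreducible factors of `F_{k,n}` for all `n` with a simple spectrum: if `F_{k,m}` has an
irreducible factor of degree at least `r`, then so has `F_{k,n}` (`T_m` is a polynomial in `T_n` with
rational coefficients).
-/

namespace Pool.Agent.Lib.MP_06b9d2_lf

open UpperHalfPlane Pool.Agent.L1 Pool.Agent.Lib.MP_06b9d2_nt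
open Pool.Agent.Lib.MP_06b9d2_tls (KerOne)
open scoped MatrixGroups ModularForm IntermediateField

/-- the characteristic polynomial has an irreducible factor of degree at least `r` over `ℚ` -/
def Fc {V : Type*} [AddCommGroup V] [Module ℂ V] [Module.Finite ℂ V] (T : V →ₗ[ℂ] V) (r : ℕ) : Prop :=
  ∃ P : Polynomial ℚ, P.map (algebraMap ℚ ℂ) = LinearMap.charpoly T ∧
    ∃ g : Polynomial ℚ, Irreducible g ∧ g ∣ P ∧ r ≤ g.natDegree

theorem fc_trans {V : Type*} [AddCommGroup V] [Module ℂ V] [Module.Finite ℂ V]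
    (T T' : V →ₗ[ℂ] V) (Q P : Polynomial ℚ) (hQ : T' = Polynomial.aeval T (Q.map (algebraMap ℚ ℂ)))
    (hP : P.map (algebraMap ℚ ℂ) = LinearMap.charpoly T) {r : ℕ} (h : Fc T' r) : Fc T r := by
  classical
  obtain ⟨P', hP', g, hg, hgd, hgr⟩ := h
  -- a complex root of `g`
  obtain ⟨β, hβ⟩ := Complex.exists_root (f := g.map (algebraMap ℚ ℂ)) (by
    rw [Polynomial.degree_map]
    exact Polynomial.natDegree_pos_iff_degree_pos.1 hg.natDegree_pos)
  have hβg : Polynomial.aeval β g = 0 := by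
    rw [Polynomial.aeval_def, ← Polynomial.eval_map]
    exact hβ
  have hβ' : (LinearMap.charpoly T').IsRoot β := by
    rw [← hP']
    exact hβ.dvd (Polynomial.map_dvd _ hgd)
  have hev : Module.End.HasEigenvalue T' β := by
    rw [Module.End.hasEigenvalue_iff_isRoot_charpoly]
    exact hβ'
  have hnt : Nontrivial V := by
    obtain ⟨v, hv⟩ := hev.exists_hasEigenvector
    exact ⟨v, 0, hv.2⟩
  have hσ : β ∈ spectrum ℂ T' := hev.mem_spectrum
  have hne : (spectrum ℂ T).Nonempty := by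
    obtain ⟨μ, hμ⟩ := Module.End.exists_eigenvalue T
    exact ⟨μ, hμ.mem_spectrum⟩
  rw [hQ, spectrum.map_polynomial_aeval_of_nonempty T _ hne] at hσ
  obtain ⟨α, hα, hαβ⟩ := hσ
  have hαr : (LinearMap.charpoly T).IsRoot α := by
    rw [← Module.End.hasEigenvalue_iff_isRoot_charpoly]
    exact Module.End.hasEigenvalue_iff_mem_spectrum.2 hα
  have hP0 : P ≠ 0 := by
    rintro rfl
    rw [Polynomial.map_zero] at hP
    exact (LinearMap.charpoly_monic T).ne_zero hP.symm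
  have hαP : Polynomial.aeval α P = 0 := by
    rw [Polynomial.aeval_def, ← Polynomial.eval_map, hP]
    exact hαr
  have hαa : IsAlgebraic ℚ α := ⟨P, hP0, hαP⟩
  have hαi : IsIntegral ℚ α := hαa.isIntegral
  refine ⟨P, hP, minpoly ℚ α, minpoly.irreducible hαi, minpoly.dvd ℚ α hαP, hgr.trans ?_⟩
  -- `β` is in `ℚ(α)`
  have hαβ' : Polynomial.aeval α Q = β := by
    rw [← hαβ, Polynomial.aeval_def, ← Polynomial.eval_map]
  let γ : ℚ⟮α⟯ := IntermediateField.AdjoinSimple.gen ℚ α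
  let b : ℚ⟮α⟯ := Polynomial.aeval γ Q
  have hb : algebraMap ℚ⟮α⟯ ℂ b = β := by
    rw [← hαβ', ← Polynomial.aeval_algebraMap_apply]
    rfl
  have : FiniteDimensional ℚ ℚ⟮α⟯ := IntermediateField.adjoin.finiteDimensional hαi
  have h1 : minpoly ℚ β = minpoly ℚ b := by
    rw [← hb]
    exact minpoly.algebraMap_eq (algebraMap ℚ⟮α⟯ ℂ).injective b
  have h2 : g.natDegree = (minpoly ℚ β).natDegree := by
    rw [← minpoly.eq_of_irreducible hg hβg, Polynomial.natDegree_mul_C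
      (inv_ne_zero (Polynomial.leadingCoeff_ne_zero.2 hg.ne_zero))]
  rw [h2, h1, ← IntermediateField.adjoin.finrank hαi]
  exact minpoly.natDegree_le b

/-- `F_{k,n}` has an irreducible factor of degree at least `r` if `F_{k,2}` has one -/
theorem fc_hecke {n : ℕ} (hn : 1 ≤ n) (H : KerOne n) (k : ℤ) (hk : Even k) (r : ℕ)
    (h : ∀ [Module.Finite ℂ (CuspForm 𝒮ℒ k)] (T : CuspForm 𝒮ℒ k →ₗ[ℂ] CuspForm 𝒮ℒ k),
      IsHecke k 2 T → Fc T r)
    (Γ : Subgroup (GL (Fin 2) ℝ)) (hΓ : Γ = 𝒮ℒ) [Γ.HasDetOne]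
    [Module.Finite ℂ (CuspForm Γ k)] (T : CuspForm Γ k →ₗ[ℂ] CuspForm Γ k)
    (hT : ∀ (f : CuspForm Γ k) (τ : UpperHalfPlane),
      T f τ = ∑ a ∈ n.divisors, ∑ b ∈ Finset.range (n / a),
        ((n : ℂ) ^ (k - 1) * ((n / a : ℕ) : ℂ) ^ (-k)) *
          f (UpperHalfPlane.ofComplex (((a : ℂ) * (τ : ℂ) + (b : ℂ)) / ((n / a : ℕ) : ℂ)))) :
    ∃ P : Polynomial ℚ, P.map (algebraMap ℚ ℂ) = LinearMap.charpoly T ∧
      ∃ g : Polynomial ℚ, Irreducible g ∧ g ∣ P ∧ r ≤ g.natDegree := by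
  subst hΓ
  have : NeZero n := ⟨by omega⟩
  obtain ⟨T', hT'⟩ := Pool.Agent.Lib.MP_06b9d2_p2.hecke_ex k 2 (by norm_num)
  obtain ⟨Q, hQ⟩ := Pool.Agent.Lib.MP_06b9d2_tls.hecke_rat (m := 2) H k hk T T' hT hT'
  obtain ⟨⟨F, -, hF, -⟩, -⟩ := Pool.Agent.Lib.MP_06b9d2_tls.concl hn H _ rfl k hk T hT
  refine fc_trans T T' Q (F.map (Int.castRingHom ℚ)) hQ ?_ (h T' hT')
  rw [← hF, Polynomial.map_map]
  congr 1

end Pool.Agent.Lib.MP_06b9d2_lf
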