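import Pool.Agent.Lib.MP_06b9d2_tls.PrW
import Pool.Agent.Lib.MP_06b9d2_tls.PrW9
import Pool.Agent.Lib.MP_06b9d2_tl2.PrL2
import Pool.Agent.Lib.MP_06b9d2_tln.Fin
import Pool.Agent.Lib.MP_06b9d2_tlm.Fin3

/-!
MP_06b9d2_nt: the set of all `n` for which `T_n` is shown to have a simple spectrum on all `S_k`.
-/

namespace Pool.Agent.Lib.MP_06b9d2_lf

/-- `T_n` has one-dimensional eigenspaces -/
theorem ker (n : ℕ) (h : (∃ l i : ℕ, l.Prime ∧ 1 ≤ i ∧ n = l ^ i ∧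
        (l % 9 = 2 ∨ l % 9 = 4 ∨ l % 9 = 5 ∨ l % 9 = 7 ∨ l % 27 = 8 ∨ l % 27 = 17 ∨
          l % 8 = 3 ∨ l % 8 = 5 ∨ l % 16 = 7 ∨ l % 32 = 15)) ∨
      (n % 4 = 3 ∧ ∀ p ∈ n.primeFactors, p % 32 = 31 → n.factorization p % 2 = 0) ∨
      (n % 2 = 1 ∧
        (n.primeFactors.filter fun p => p % 4 = 3 ∧ n.factorization p % 2 = 1).card % 4 = 2 ∧
        ∀ p ∈ n.primeFactors, p % 16 = 15 → n.factorization p % 2 = 0) ∨
      (n % 8 = 5 ∧ ∀ p ∈ n.primeFactors, p % 4 = 3 → n.factorization p % 2 = 0) ∨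
      (n % 3 ≠ 0 ∧
        ((n.primeFactors.filter fun p => p % 3 = 2 ∧ n.factorization p % 2 = 1).card = 1 ∨
          (n.primeFactors.filter fun p => p % 3 = 2 ∧ n.factorization p % 2 = 1).card = 2) ∧
        ∀ p ∈ n.primeFactors, p % 27 = 26 → n.factorization p % 2 = 0)) :
    1 ≤ n ∧ Pool.Agent.Lib.MP_06b9d2_tls.KerOne n := by
  rcases h with ⟨l, i, hl, hi, rfl, hc⟩ | ⟨h1, h2⟩ | ⟨h1, h2, h3⟩ | ⟨h1, h2⟩ | ⟨h1, h2, h3⟩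
  · refine ⟨Nat.one_le_pow _ _ hl.pos, ?_⟩
    rcases hc with h | h | h | h | h | h | h | h | h | h
    · exact Pool.Agent.Lib.MP_06b9d2_tls.kerOne_ppow l hl (Or.inl h) i hi
    · exact Pool.Agent.Lib.MP_06b9d2_tls.kerOne_ppow l hl (Or.inr (Or.inl h)) i hi
    · exact Pool.Agent.Lib.MP_06b9d2_tls.kerOne_ppow l hl (Or.inr (Or.inr (Or.inl h))) i hi
    · exact Pool.Agent.Lib.MP_06b9d2_tls.kerOne_ppow l hl (Or.inr (Or.inr (Or.inr h))) i hi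
    · exact Pool.Agent.Lib.MP_06b9d2_tls.kerOne_ppow9 l hl (Or.inl h) i hi
    · exact Pool.Agent.Lib.MP_06b9d2_tls.kerOne_ppow9 l hl (Or.inr h) i hi
    · exact Pool.Agent.Lib.MP_06b9d2_tl2.kerOne_ppow2 l hl (Or.inl h) i hi
    · exact Pool.Agent.Lib.MP_06b9d2_tl2.kerOne_ppow2 l hl (Or.inr (Or.inl h)) i hi
    · exact Pool.Agent.Lib.MP_06b9d2_tl2.kerOne_ppow2 l hl (Or.inr (Or.inr (Or.inl h))) i hi
    · exact Pool.Agent.Lib.MP_06b9d2_tl2.kerOne_ppow2 l hl (Or.inr (Or.inr (Or.inr h))) i hi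
  · exact ⟨by omega, Pool.Agent.Lib.MP_06b9d2_tln.kerOne_odd n (Or.inl ⟨h1, h2⟩)⟩
  · exact ⟨by omega, Pool.Agent.Lib.MP_06b9d2_tln.kerOne_odd n (Or.inr (Or.inl ⟨h1, h2, h3⟩))⟩
  · refine ⟨by omega, Pool.Agent.Lib.MP_06b9d2_tln.kerOne_odd n (Or.inr (Or.inr ⟨h1, ?_⟩))⟩
    unfold Pool.Agent.Lib.MP_06b9d2_tln.nu3
    rw [Finset.card_eq_zero, Finset.filter_eq_empty_iff]
    rintro p hp ⟨h3, h4⟩
    have h5 := h2 p hp h3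
    omega
  · exact ⟨by omega, Pool.Agent.Lib.MP_06b9d2_tlm.kerOne_three n (by omega) h1 h2 h3⟩

end Pool.Agent.Lib.MP_06b9d2_lf
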